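import Pool.Agent.Y6.G.Stm3

/-!
# EQ-AE: almost every parameter is good (measure theory)

Adapted from `Pool/Agent/Y31/EP/Gen.lean` of helper31.
-/

set_option autoImplicit false

namespace Pool.Agent.Y872.EP.AE

open Set Filter Topology MeasureTheory
open Pool.Agent.Y6.G (S_AE)

/-- the measure of a slab of a centred cube -/
theorem slab {J : Type} [Fintype J] [DecidableEq J] (F : J → ℝ) (j : J) (hj : F j ≠ 0) (δ R : ℝ)
    (hδ : 0 ≤ δ) (hR : 0 ≤ R) :
    volume {P : J → ℝ | (∀ i, P i ∈ Icc (-R) R) ∧ |∑ i, P i * F i| < δ} ≤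
      ENNReal.ofReal ((2 * R) ^ (Fintype.card J - 1) * (2 * (δ / |F j|))) := by
  have hdet : LinearMap.det (Matrix.toLin' ((1 : Matrix J J ℝ).updateRow j F)) = F j := by
    rw [LinearMap.det_toLin', ← Matrix.cramer_transpose_apply, Matrix.transpose_one,
      Matrix.cramer_one]
    rfl
  have hsub : {P : J → ℝ | (∀ i, P i ∈ Icc (-R) R) ∧ |∑ i, P i * F i| < δ} ⊆
      (Matrix.toLin' ((1 : Matrix J J ℝ).updateRow j F)) ⁻¹'
        (Set.pi univ (Function.update (fun _ => Icc (-R) R) j (Ioo (-δ) δ))) := by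
    rintro P ⟨hP1, hP2⟩ i -
    rw [Matrix.toLin'_apply]
    by_cases hij : i = j
    · subst hij
      rw [Function.update_self]
      have h1 : ((1 : Matrix J J ℝ).updateRow i F).mulVec P i = ∑ k, P k * F k := by
        rw [Matrix.mulVec, dotProduct]
        refine Finset.sum_congr rfl fun k _ => ?_
        rw [Matrix.updateRow_self, mul_comm]
      rw [h1]
      exact abs_lt.1 hP2
    · rw [Function.update_of_ne hij]
      have h1 : ((1 : Matrix J J ℝ).updateRow j F).mulVec P i = P i := by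
        rw [Matrix.mulVec, dotProduct]
        have h2 : ∀ k, (1 : Matrix J J ℝ).updateRow j F i k * P k =
            (1 : Matrix J J ℝ) i k * P k := fun k => by
          rw [Matrix.updateRow_ne hij]
        rw [Finset.sum_congr rfl fun k _ => h2 k]
        have h3 := congrFun (Matrix.one_mulVec P) i
        rwa [Matrix.mulVec, dotProduct] at h3
      rw [h1]
      exact hP1 i
  refine (measure_mono hsub).trans ?_
  rw [Measure.addHaar_preimage_linearMap volume (by rw [hdet]; exact hj), hdet, volume_pi_pi,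
    ← Finset.mul_prod_erase Finset.univ _ (Finset.mem_univ j), Function.update_self,
    Real.volume_Ioo]
  have h4 : ∏ x ∈ Finset.univ.erase j,
      volume (Function.update (fun _ => Icc (-R) R) j (Ioo (-δ) δ) x) =
        ENNReal.ofReal ((2 * R) ^ (Fintype.card J - 1)) := by
    rw [ENNReal.ofReal_pow (by linarith)]
    have h5 : ∀ x ∈ Finset.univ.erase j,
        volume (Function.update (fun _ => Icc (-R) R) j (Ioo (-δ) δ) x) =
          ENNReal.ofReal (2 * R) := by
      intro x hx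
      rw [Function.update_of_ne (Finset.ne_of_mem_erase hx), Real.volume_Icc]
      congr 1
      ring
    rw [Finset.prod_congr rfl h5, Finset.prod_const, Finset.card_erase_of_mem (Finset.mem_univ j),
      Finset.card_univ]
  rw [h4, ← ENNReal.ofReal_mul (by linarith), ← ENNReal.ofReal_mul (abs_nonneg _)]
  refine ENNReal.ofReal_le_ofReal (le_of_eq ?_)
  rw [abs_inv, div_eq_mul_inv]
  ring

/-- almost every parameter is good -/
theorem t_AE : S_AE := by
  classical
  intro I J _ _ F δ hδ hS hF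
  rcases isEmpty_or_nonempty J with hJ | hJ
  · refine Eventually.of_forall fun P => ⟨1, one_pos, fun τ => ?_⟩
    obtain ⟨j, -⟩ := hF τ
    exact (hJ.false j).elim
  have hmax : ∀ τ, ∃ j, |F τ j| = ⨆ j, |F τ j| := fun τ => exists_eq_ciSup_of_finite
  choose k hk using hmax
  have hpos : ∀ τ, 0 < |F τ (k τ)| := by
    intro τ
    obtain ⟨j, hj⟩ := hF τ
    rw [hk]
    exact (abs_pos.2 hj).trans_le (le_ciSup (f := fun j => |F τ j|) (Set.finite_range _).bddAbove j)
  have hS' : Summable (fun τ => δ τ / |F τ (k τ)|) := by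
    refine hS.congr fun τ => ?_
    rw [hk]
  have hnn : ∀ τ, 0 ≤ δ τ / |F τ (k τ)| := fun τ => div_nonneg (hδ τ) (hpos τ).le
  obtain ⟨S, hSd⟩ : ∃ S : ℝ, S = ∑' τ, δ τ / |F τ (k τ)| := ⟨_, rfl⟩
  have hSn : 0 ≤ S := by rw [hSd]; exact tsum_nonneg hnn
  -- the bad points of a cube
  have hbad : ∀ R : ℕ, volume {P : J → ℝ | (∀ i, P i ∈ Icc (-(R : ℝ)) R) ∧
      ∀ κ : ℝ, 0 < κ → ∃ τ, |∑ i, P i * F τ i| < κ * δ τ} = 0 := by
    intro R
    have hR : (0 : ℝ) ≤ R := Nat.cast_nonneg R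
    have hκ : ∀ κ : ℝ, 0 < κ → volume {P : J → ℝ | (∀ i, P i ∈ Icc (-(R : ℝ)) R) ∧
        ∀ κ : ℝ, 0 < κ → ∃ τ, |∑ i, P i * F τ i| < κ * δ τ} ≤
        ENNReal.ofReal (κ * ((2 * R) ^ (Fintype.card J - 1) * (2 * S))) := by
      intro κ hκ
      have hcov : {P : J → ℝ | (∀ i, P i ∈ Icc (-(R : ℝ)) R) ∧
          ∀ κ : ℝ, 0 < κ → ∃ τ, |∑ i, P i * F τ i| < κ * δ τ} ⊆
          ⋃ τ, {P : J → ℝ | (∀ i, P i ∈ Icc (-(R : ℝ)) R) ∧ |∑ i, P i * F τ i| < κ * δ τ} := by
        rintro P ⟨hP1, hP2⟩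
        obtain ⟨τ, hτ⟩ := hP2 κ hκ
        exact mem_iUnion.2 ⟨τ, hP1, hτ⟩
      refine (measure_mono hcov).trans ((measure_iUnion_le _).trans ?_)
      refine (ENNReal.tsum_le_tsum fun τ => slab (F τ) (k τ) (abs_pos.1 (hpos τ)) (κ * δ τ) R
        (mul_nonneg hκ.le (hδ τ)) hR).trans ?_
      have h1 : ∀ τ, (2 * (R : ℝ)) ^ (Fintype.card J - 1) * (2 * (κ * δ τ / |F τ (k τ)|)) =
          (κ * ((2 * (R : ℝ)) ^ (Fintype.card J - 1) * 2)) * (δ τ / |F τ (k τ)|) := by
        intro τ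
        ring
      simp only [h1]
      have hc : 0 ≤ κ * ((2 * (R : ℝ)) ^ (Fintype.card J - 1) * 2) := by positivity
      rw [← ENNReal.ofReal_tsum_of_nonneg (fun τ => mul_nonneg hc (hnn τ)) (hS'.mul_left _),
        tsum_mul_left, ← hSd]
      refine ENNReal.ofReal_le_ofReal (le_of_eq ?_)
      ring
    have hlim : Tendsto (fun n : ℕ => ENNReal.ofReal ((1 / ((n : ℝ) + 1)) *
        ((2 * (R : ℝ)) ^ (Fintype.card J - 1) * (2 * S)))) atTop (𝓝 0) := by
      rw [← ENNReal.ofReal_zero]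
      refine (ENNReal.continuous_ofReal.tendsto 0).comp ?_
      have := (tendsto_one_div_add_atTop_nhds_zero_nat (𝕜 := ℝ)).mul_const
        ((2 * (R : ℝ)) ^ (Fintype.card J - 1) * (2 * S))
      rwa [zero_mul] at this
    refine le_antisymm (ge_of_tendsto' hlim fun n => hκ _ (by positivity)) zero_le
  rw [ae_iff]
  refine measure_mono_null ?_ (measure_iUnion_null hbad)
  intro P hP
  rw [Set.mem_ofPred_eq] at hP
  push Not at hP
  obtain ⟨R, hR⟩ := exists_nat_ge (∑ i, |P i|)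
  refine mem_iUnion.2 ⟨R, fun i => ?_, hP⟩
  have h1 : |P i| ≤ R := (Finset.single_le_sum (f := fun i => |P i|) (fun i _ => abs_nonneg _)
    (Finset.mem_univ i)).trans hR
  exact abs_le.1 h1

end Pool.Agent.Y872.EP.AE
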